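import Pool.Agent.H36.ENR.Stmts2

/-!
# Board enr, row FXC (helper49)
-/

set_option autoImplicit false

namespace Pool.ENR

namespace FXCaux

theorem fix_of_iter {α : Type} [Finite α] (p N : ℕ) (hp : p.Prime) (hα : ¬ p ∣ Nat.card α)
    (f : α → α) (hf : ∀ x, f^[p ^ N] x = x) : ∃ a, f a = a := by
  classical
  have : Fact p.Prime := ⟨hp⟩
  have := Fintype.ofFinite α
  have hinj : Function.Injective f := by
    have h0 : 0 < p ^ N := pow_pos hp.pos N
    obtain ⟨m, hm⟩ : ∃ m, p ^ N = m + 1 := ⟨p ^ N - 1, by omega⟩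
    intro x y hxy
    have h1 := hf x
    have h2 := hf y
    rw [hm, Function.iterate_succ_apply] at h1 h2
    rw [hxy, h2] at h1
    exact h1.symm
  have hbij : Function.Bijective f := Finite.injective_iff_bijective.mp hinj
  let e : Equiv.Perm α := Equiv.ofBijective f hbij
  have he : e ^ p ^ N = 1 := by
    ext x
    rw [← Equiv.Perm.iterate_eq_pow]
    exact hf x
  rw [Nat.card_eq_fintype_card] at hα
  obtain ⟨a, ha⟩ := Equiv.Perm.exists_fixed_point_of_prime hα he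
  exact ⟨a, ha⟩

/-- The core: `zpowers s` is invariant, then the second generator can be chosen. -/
theorem core (T : Type) [Group T] [Finite T] (p a N : ℕ) (σ : MulAut T) (s n : T) (hp : p.Prime)
    (ha : 1 ≤ a) (hs : orderOf s = p ^ a) (hT : ¬ p ^ (a + 1) ∣ Nat.card T)
    (hn : n * s * n⁻¹ = s⁻¹) (hσ : σ ^ (p ^ N) = 1)
    (lam : ℕ) (hlam : σ s = s ^ lam) :
    lam ≡ 1 [MOD p] ∧ ∃ (n' : T) (be : ℕ), n' * s * n'⁻¹ = s⁻¹ ∧ σ n' = s ^ be * n' := by
  classical
  have : Fact p.Prime := ⟨hp⟩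
  have hpow : ∀ m : ℕ, (σ ^ m) s = s ^ (lam ^ m) := by
    intro m
    induction m with
    | zero => simp
    | succ m ih =>
      rw [pow_succ, MulAut.mul_apply, hlam, map_pow, ih, ← pow_mul, ← pow_succ]
  have hmod : lam ^ (p ^ N) ≡ 1 [MOD p ^ a] := by
    have h1 := hpow (p ^ N)
    rw [hσ, MulAut.one_apply] at h1
    have h2 : s ^ 1 = s ^ (lam ^ (p ^ N)) := by rw [pow_one]; exact h1
    rw [pow_eq_pow_iff_modEq, hs] at h2
    exact h2.symm
  have hlam1 : lam ≡ 1 [MOD p] := by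
    have h1 : lam ^ (p ^ N) ≡ 1 [MOD p] := hmod.of_dvd (dvd_pow_self p (by omega))
    rw [← ZMod.natCast_eq_natCast_iff] at h1 ⊢
    rw [Nat.cast_pow, ZMod.pow_card_pow] at h1
    exact h1
  refine ⟨hlam1, ?_⟩
  obtain ⟨k, hk⟩ : ∃ k : ℕ, (s ^ lam) ^ k = s := by
    have h0 : 0 < p ^ N := pow_pos hp.pos N
    obtain ⟨m, hm⟩ : ∃ m, p ^ N = m + 1 := ⟨p ^ N - 1, by omega⟩
    refine ⟨lam ^ m, ?_⟩
    rw [← pow_mul, ← pow_succ', ← hm, ← hpow, hσ, MulAut.one_apply]
  -- sigma preserves the inverting elements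
  have hinv : ∀ y : T, y * s * y⁻¹ = s⁻¹ → σ y * s * (σ y)⁻¹ = s⁻¹ := by
    intro y hy
    have h1 : σ y * s ^ lam * (σ y)⁻¹ = (s ^ lam)⁻¹ := by
      rw [← hlam, ← map_inv, ← map_inv, ← map_mul, ← map_mul, hy]
    calc σ y * s * (σ y)⁻¹ = σ y * (s ^ lam) ^ k * (σ y)⁻¹ := by rw [hk]
      _ = (σ y * s ^ lam * (σ y)⁻¹) ^ k := by rw [conj_pow]
      _ = s⁻¹ := by rw [h1, inv_pow, hk]
  have hmem : ∀ c : T, c ∈ Subgroup.centralizer {s} → (n * c) * s * (n * c)⁻¹ = s⁻¹ := by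
    intro c hc
    rw [Subgroup.mem_centralizer_singleton_iff] at hc
    rw [mul_assoc n c s, hc, mul_inv_rev]
    calc n * (s * c) * (c⁻¹ * n⁻¹) = n * s * n⁻¹ := by group
      _ = s⁻¹ := hn
  have hback : ∀ y : T, y * s * y⁻¹ = s⁻¹ → n⁻¹ * y ∈ Subgroup.centralizer {s} := by
    intro y hy
    rw [Subgroup.mem_centralizer_singleton_iff]
    have h1 : y * s = s⁻¹ * y := by rw [← hy]; group
    have h2 : n * s = s⁻¹ * n := by rw [← hn]; group
    have h3 : s * n⁻¹ = n⁻¹ * s⁻¹ := by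
      calc s * n⁻¹ = n⁻¹ * (n * s) * n⁻¹ := by group
        _ = n⁻¹ * (s⁻¹ * n) * n⁻¹ := by rw [h2]
        _ = n⁻¹ * s⁻¹ := by group
    symm
    calc s * (n⁻¹ * y) = (s * n⁻¹) * y := by group
      _ = n⁻¹ * (s⁻¹ * y) := by rw [h3]; group
      _ = n⁻¹ * y * s := by rw [← h1]; group
  let C : Subgroup T := Subgroup.centralizer {s}
  let g : C → C := fun c => ⟨n⁻¹ * σ (n * c), hback _ (hinv _ (hmem _ c.2))⟩
  have hgv : ∀ c : C, ((g c : C) : T) = n⁻¹ * σ (n * c) := fun c => rfl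
  have hiter : ∀ (m : ℕ) (c : C), ((g^[m] c : C) : T) = n⁻¹ * (σ ^ m) (n * c) := by
    intro m c
    induction m with
    | zero => simp
    | succ m ih =>
      rw [Function.iterate_succ_apply', hgv, ih, mul_inv_cancel_left, pow_succ', MulAut.mul_apply]
  have hsC : s ∈ C := by
    show s ∈ Subgroup.centralizer {s}
    rw [Subgroup.mem_centralizer_singleton_iff]
  let K : Subgroup C := (Subgroup.zpowers s).subgroupOf C
  have hKle : Subgroup.zpowers s ≤ C := by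
    rw [Subgroup.zpowers_le]
    exact hsC
  have hQcard : Nat.card (Subgroup.zpowers s) = p ^ a := by
    rw [Nat.card_zpowers, hs]
  have hKcard : Nat.card K = p ^ a := by
    rw [← hQcard]
    exact Nat.card_congr (Subgroup.subgroupOfEquivOfLe hKle).toEquiv
  have hσQ : ∀ x ∈ Subgroup.zpowers s, σ x ∈ Subgroup.zpowers s := by
    intro x hx
    obtain ⟨i, rfl⟩ := Subgroup.mem_zpowers_iff.mp hx
    rw [map_zpow, hlam]
    exact Subgroup.zpow_mem _ (Subgroup.pow_mem _ (Subgroup.mem_zpowers s) _) _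
  have hrel : ∀ c d : C, c⁻¹ * d ∈ K → (g c)⁻¹ * g d ∈ K := by
    intro c d hcd
    rw [Subgroup.mem_subgroupOf] at hcd ⊢
    have h1 : (((g c)⁻¹ * g d : C) : T) = σ (((c⁻¹ * d : C) : T)) := by
      rw [Subgroup.coe_mul, Subgroup.coe_inv, hgv, hgv, Subgroup.coe_mul, Subgroup.coe_inv]
      simp only [map_mul, map_inv]
      group
    rw [h1]
    exact hσQ _ hcd
  let f : C ⧸ K → C ⧸ K := Quotient.map' g (by
    intro c d hcd
    rw [QuotientGroup.leftRel_apply] at hcd ⊢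
    exact hrel c d hcd)
  have hf : ∀ c : C, f (QuotientGroup.mk c) = QuotientGroup.mk (g c) := fun c => rfl
  have hfi : ∀ (m : ℕ) (c : C), f^[m] (QuotientGroup.mk c) = QuotientGroup.mk (g^[m] c) := by
    intro m c
    induction m with
    | zero => rfl
    | succ m ih => rw [Function.iterate_succ_apply', ih, hf, Function.iterate_succ_apply']
  have hcardC : ¬ p ∣ Nat.card (C ⧸ K) := by
    intro hd
    apply hT
    have h1 := Subgroup.card_eq_card_quotient_mul_card_subgroup K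
    rw [hKcard] at h1
    have h2 : Nat.card C ∣ Nat.card T := Subgroup.card_subgroup_dvd_card C
    refine dvd_trans ?_ h2
    rw [h1, pow_succ']
    exact Nat.mul_dvd_mul_right hd _
  obtain ⟨q, hq⟩ := fix_of_iter p N hp hcardC f (by
    intro q
    induction q using QuotientGroup.induction_on with
    | H c =>
      rw [hfi]
      apply congrArg
      apply Subtype.ext
      rw [hiter, hσ, MulAut.one_apply, inv_mul_cancel_left])
  induction q using QuotientGroup.induction_on with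
  | H c =>
    rw [hf, eq_comm, QuotientGroup.eq, Subgroup.mem_subgroupOf, Subgroup.coe_mul, Subgroup.coe_inv,
      hgv] at hq
    obtain ⟨i, hi⟩ := Subgroup.mem_zpowers_iff.mp hq
    have hy : (n * (c : T)) * s * (n * (c : T))⁻¹ = s⁻¹ := hmem _ c.2
    have h2 : σ (n * c) = (n * c) * s ^ i := by
      rw [hi]; group
    have h3 : (n * (c : T)) * s ^ i * (n * (c : T))⁻¹ = s ^ (-i) := by
      rw [← conj_zpow, hy, inv_zpow', ]
    obtain ⟨be, hbe⟩ : ∃ be : ℕ, s ^ be = s ^ (-i) := by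
      have h4 : s ^ (-i) ∈ Submonoid.powers s := by
        rw [mem_powers_iff_mem_zpowers]
        exact Subgroup.zpow_mem _ (Subgroup.mem_zpowers s) _
      obtain ⟨be, hbe⟩ := h4
      exact ⟨be, hbe⟩
    refine ⟨n * c, be, hy, ?_⟩
    rw [h2, hbe, ← h3]
    group

end FXCaux

theorem fxc_thm (h1 : FXYStmt) : FXCStmt := by
  intro T _ _ p a N σ s n hp hp2 ha hs hT hn hσ
  classical
  have : Fact p.Prime := ⟨hp⟩
  have hsyl : ¬ p ∣ Nat.card (Sylow p T) := by
    intro hd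
    have h2 := card_sylow_modEq_one p T
    have h3 : Nat.card (Sylow p T) ≡ 0 [MOD p] := (Nat.modEq_zero_iff_dvd).mpr hd
    have h4 : 1 ≡ 0 [MOD p] := h2.symm.trans h3
    have h5 : p ∣ 1 := (Nat.modEq_zero_iff_dvd).mp h4
    exact hp.one_lt.ne' (Nat.dvd_one.mp h5)
  obtain ⟨P, hP⟩ := h1 T p p N σ hp hp hσ hsyl
  have hQcard : Nat.card (Subgroup.zpowers s) = p ^ a := by
    rw [Nat.card_zpowers, hs]
  have hdvd : p ^ a ∣ Nat.card T := by
    rw [← hs]
    exact orderOf_dvd_natCard s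
  have hcT : Nat.card T ≠ 0 := Nat.card_pos.ne'
  have hfac : (Nat.card T).factorization p = a := by
    apply le_antisymm
    · by_contra hlt
      apply hT
      exact (hp.pow_dvd_iff_le_factorization hcT).mpr (by omega)
    · exact (hp.pow_dvd_iff_le_factorization hcT).mp hdvd
  let Q0 : Sylow p T := Sylow.ofCard (Subgroup.zpowers s) (by rw [hQcard, hfac])
  obtain ⟨g, hg⟩ := MulAction.exists_smul_eq T Q0 P
  have hsP : g * s * g⁻¹ ∈ P := by
    rw [← hg]
    show g * s * g⁻¹ ∈ ((g • Q0 : Sylow p T) : Subgroup T)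
    rw [Sylow.coe_subgroup_smul, Subgroup.mem_pointwise_smul_iff_inv_smul_mem]
    show (MulAut.conj g)⁻¹ (g * s * g⁻¹) ∈ Subgroup.zpowers s
    rw [← map_inv, MulAut.conj_apply]
    have : g⁻¹ * (g * s * g⁻¹) * g⁻¹⁻¹ = s := by group
    rw [this]
    exact Subgroup.mem_zpowers s
  have hs1 : orderOf (g * s * g⁻¹) = p ^ a := by
    rw [← hs]
    exact MulEquiv.orderOf_eq (MulAut.conj g) s
  have hn1 : (g * n * g⁻¹) * (g * s * g⁻¹) * (g * n * g⁻¹)⁻¹ = (g * s * g⁻¹)⁻¹ := by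
    calc (g * n * g⁻¹) * (g * s * g⁻¹) * (g * n * g⁻¹)⁻¹ = g * (n * s * n⁻¹) * g⁻¹ := by group
      _ = g * s⁻¹ * g⁻¹ := by rw [hn]
      _ = (g * s * g⁻¹)⁻¹ := by group
  have hPz : Subgroup.zpowers (g * s * g⁻¹) = (P : Subgroup T) := by
    apply Subgroup.eq_of_le_of_card_ge
    · rw [Subgroup.zpowers_le]
      exact hsP
    · rw [Nat.card_zpowers, hs1, Sylow.card_eq_multiplicity, hfac]
  obtain ⟨lam, hlam⟩ : ∃ lam : ℕ, σ (g * s * g⁻¹) = (g * s * g⁻¹) ^ lam := by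
    have h4 : σ (g * s * g⁻¹) ∈ Submonoid.powers (g * s * g⁻¹) := by
      rw [mem_powers_iff_mem_zpowers, hPz]
      exact (hP _).mp hsP
    obtain ⟨be, hbe⟩ := h4
    exact ⟨be, hbe.symm⟩
  obtain ⟨hl1, n', be, hn', hbe⟩ := FXCaux.core T p a N σ (g * s * g⁻¹) (g * n * g⁻¹) hp ha hs1 hT
    hn1 hσ lam hlam
  exact ⟨g * s * g⁻¹, n', lam, be, hs1, hn', hlam, hl1, hbe⟩

end Pool.ENR
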